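import Pool.Agent.Helper15.EP.St

/-!
# Project EP (MP_16cbc0_nt): module APM, the mean over the units
-/

set_option autoImplicit false

namespace Pool.Agent.Helper18.EP

open Polynomial Pool.Agent.Helper15.FC Pool.Agent.Helper15.EP

theorem cram_neg {F : Type} [Field F] [Fintype F] (e h : F[X]) : cram e (-h) = cram e h := by
  unfold cram
  refine Finset.sum_congr ?_ fun _ _ => rfl
  ext d
  simp only [Finset.mem_filter, dvd_neg]

/-- the sum over the characters counts the divisibility -/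
theorem ap_char (hACF : StACF) {F : Type} [Field F] [Fintype F] {l : ℕ} (y : Fin l → ℕ)
    (m t : F[X]) (hm : m.Monic) :
    (AP y m t : ℂ) * (Fintype.card F : ℂ) ^ m.natDegree =
      ∑ ν ∈ ACf m, (∑ b ∈ Tup F y, ν (∏ j, b j)) * ν (-t) := by
  classical
  obtain ⟨-, -, -, h1, h2⟩ := (hACF F).2 m hm
  have h3 : (AP y m t : ℂ) * (Fintype.card F : ℂ) ^ m.natDegree =
      ∑ b ∈ Tup F y, ∑ ν ∈ ACf m, ν ((∏ j, b j) - t) := by
    have h4 : ∀ b ∈ Tup F y, ∑ ν ∈ ACf m, ν ((∏ j, b j) - t) =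
        if m ∣ (∏ j, b j) - t then (Fintype.card F : ℂ) ^ m.natDegree else 0 := by
      intro b _
      split_ifs with h
      · exact h1 _ h
      · exact h2 _ h
    rw [Finset.sum_congr rfl h4, ← Finset.sum_filter, Finset.sum_const, nsmul_eq_mul]
    unfold AP
    congr
  rw [h3, Finset.sum_comm]
  refine Finset.sum_congr rfl fun ν _ => ?_
  rw [Finset.sum_mul]
  refine Finset.sum_congr rfl fun b _ => ?_
  rw [sub_eq_add_neg, AddChar.map_add_eq_mul]

theorem hAPM (hUAV : StUAV) (hDAC : StDAC) (hACF : StACF) (hRM2 : StRM2) (hPHI : StPHI) :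
    StAPM := by
  intro F _ _ l y m h hm
  have hm0 : m ≠ 0 := hm.ne_zero
  have hphi : ∀ r : F[X], r.Monic → (phi r : ℂ) ≠ 0 := by
    intro r hr
    have h1 := (hPHI F r hr).1
    exact_mod_cast (by omega : phi r ≠ 0)
  have key : ((AV y m h * qr F ^ m.natDegree : ℝ) : ℂ) =
      ((∑ e ∈ Dv m, (cram e h : ℝ) * Vl e y : ℝ) : ℂ) := by
    have h1 : ((AV y m h * qr F ^ m.natDegree : ℝ) : ℂ) =
        (1 / (phi m : ℂ)) * ∑ u ∈ Lc m, ((AP y m (u * h) : ℂ) *
          (Fintype.card F : ℂ) ^ m.natDegree) := by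
      unfold AV qr
      push_cast
      rw [← Finset.sum_mul, mul_assoc]
    have h2 : ∑ u ∈ Lc m, ((AP y m (u * h) : ℂ) * (Fintype.card F : ℂ) ^ m.natDegree) =
        ∑ ν ∈ ACf m, (∑ b ∈ Tup F y, ν (∏ j, b j)) * ∑ u ∈ Lc m, ν (u * (-h)) := by
      rw [Finset.sum_congr rfl fun u _ => ap_char hACF y m (u * h) hm, Finset.sum_comm]
      refine Finset.sum_congr rfl fun ν _ => ?_
      rw [Finset.mul_sum]
      refine Finset.sum_congr rfl fun u _ => ?_
      rw [mul_neg]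
    rw [h1, h2, hDAC F m (fun ν => (∑ b ∈ Tup F y, ν (∏ j, b j)) * ∑ u ∈ Lc m, ν (u * (-h))) hm,
      Finset.mul_sum]
    push_cast
    refine Finset.sum_congr rfl fun e he => ?_
    have hem : e.Monic := ((mem_Dv hm0).1 he).1
    have h3 : ∀ ν ∈ Pr e, (∑ b ∈ Tup F y, ν (∏ j, b j)) * ∑ u ∈ Lc m, ν (u * (-h)) =
        (∑ b ∈ Tup F y, ν (∏ j, b j)) * ((phi m : ℂ) * (cram e h : ℂ) / (phi e : ℂ)) := by
      intro ν hν
      have h4 := hUAV F m e (-h) ν hm he hν
      rw [cram_neg] at h4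
      congr 1
      rw [eq_div_iff (hphi e hem), mul_comm]
      exact h4
    rw [Finset.sum_congr rfl h3, ← Finset.sum_mul, Finset.sum_comm]
    have h5 : ∀ b ∈ Tup F y, ∑ ν ∈ Pr e, ν (∏ j, b j) = (cram e (∏ j, b j) : ℂ) :=
      fun b _ => (hRM2 F e (∏ j, b j) hem).1
    rw [Finset.sum_congr rfl h5]
    unfold Vl
    push_cast
    have h6 := hphi m hm
    have h7 := hphi e hem
    field_simp
  exact_mod_cast key

end Pool.Agent.Helper18.EP
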