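import Pool.Agent.Helper61.EP.StC

/-!
# Project EP (MP_cb927e_an), module CON: the chords with small values
-/

set_option autoImplicit false

open MeasureTheory Set Filter Topology
open scoped ENNReal RealInnerProductSpace

namespace Pool.Agent.Helper18.EP

open Pool.Agent.Helper61.EP Pool.Agent.Helper20.RG Pool.Agent.Helper20.RL
open Pool.Agent.Helper68.LM (Pl BB Bd Av HL ft fm DQ)

theorem con_bb_ind {F : Set Pl} (hF : BM F) : BB (F.indicator 1) := by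
  obtain ⟨h1, h2⟩ := hF
  obtain ⟨r, hr⟩ := h2.subset_closedBall (0 : Pl)
  refine ⟨measurable_one.indicator h1, max 1 r, fun x => ?_, fun x hx => ?_⟩
  · by_cases hxF : x ∈ F
    · simp [hxF]
    · simp [hxF]
  · apply indicator_of_notMem
    intro hxF
    have := hr hxF
    rw [Metric.mem_closedBall, dist_zero_right] at this
    have h3 := le_max_right (1 : ℝ) r
    linarith

theorem con_ind_nn (F : Set Pl) (x : Pl) : 0 ≤ F.indicator (1 : Pl → ℝ) x :=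
  indicator_nonneg (fun _ _ => zero_le_one) x

/-- `Y` of an indicator function is nonnegative -/
theorem con_Y_nn (hYB : Pool.Agent.Helper20.RG.StYB) {F : Set Pl} (hF : BM F) (s : ℝ) (c : Pl)
    (m : ℕ) (ℓ : ℝ) (k : ℤ) (hs : |s| ≤ 1) (hℓ : 0 < ℓ) (x : Pl) :
    0 ≤ Y s c m ℓ k (F.indicator 1) x :=
  (hYB s c m ℓ k (F.indicator 1) hs hℓ (con_bb_ind hF)).2.2.1 (con_ind_nn F) x

/-- `Y` is monotone on indicator functions -/
theorem con_Y_mono (hYB : Pool.Agent.Helper20.RG.StYB) {E F : Set Pl} (hE : BM E) (hF : BM F)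
    (hFE : F ⊆ E) (s : ℝ) (c : Pl)
    (m : ℕ) (ℓ : ℝ) (k : ℤ) (hs : |s| ≤ 1) (hℓ : 0 < ℓ) (x : Pl) :
    Y s c m ℓ k (F.indicator 1) x ≤ Y s c m ℓ k (E.indicator 1) x := by
  have hD : BM (E \ F) := ⟨hE.1.diff hF.1, hE.2.subset sdiff_subset⟩
  have h1 := (hYB s c m ℓ k ((E \ F).indicator 1) hs hℓ (con_bb_ind hD)).2.2.2.2 1
    (F.indicator 1) (con_bb_ind hF) x
  have e : (fun y => 1 * (E \ F).indicator (1 : Pl → ℝ) y + F.indicator 1 y) =
      E.indicator (1 : Pl → ℝ) := by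
    funext y
    by_cases hy : y ∈ F
    · have : y ∈ E := hFE hy
      simp [hy, this]
    · by_cases hy2 : y ∈ E
      · simp [hy, hy2]
      · simp [hy, hy2]
  rw [e, one_mul] at h1
  have h2 := con_Y_nn hYB hD s c m ℓ k hs hℓ x
  linarith

/-- exponential growth beats linear growth -/
theorem con_exp (δ : ℝ) (hδ : 0 < δ) : ∃ u₀ : ℕ, ∀ u : ℕ, u₀ ≤ u →
    2 * (3 * (u : ℝ) + 1) < (2 : ℝ) ^ (δ * u) := by
  have hl : 0 < Real.log 2 := Real.log_pos (by norm_num)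
  set a : ℝ := δ * Real.log 2 / 2 with ha
  have ha0 : 0 < a := by positivity
  refine ⟨⌈9 / a ^ 2⌉₊ + 1, fun u hu => ?_⟩
  have h1 : 9 / a ^ 2 ≤ (u : ℝ) := by
    have h2 : ⌈9 / a ^ 2⌉₊ ≤ u := by omega
    exact (Nat.le_ceil _).trans (by exact_mod_cast h2)
  have hu1 : (1 : ℝ) ≤ (u : ℝ) := by
    have : 1 ≤ u := by omega
    exact_mod_cast this
  rw [div_le_iff₀ (by positivity)] at h1
  have h3 : a * u ≤ Real.exp (a * u) := by
    have := Real.add_one_le_exp (a * u)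
    linarith
  have h4 : (2 : ℝ) ^ (δ * u) = Real.exp (a * u) * Real.exp (a * u) := by
    rw [Real.rpow_def_of_pos (by norm_num), ← Real.exp_add]
    congr 1
    rw [ha]; ring
  rw [h4]
  have h5 : 0 ≤ a * u := by positivity
  have h6 : (a * u) * (a * u) ≤ Real.exp (a * u) * Real.exp (a * u) :=
    mul_le_mul h3 h3 h5 (Real.exp_nonneg _)
  have h7 : (a * u) * (a * u) = (u * a ^ 2) * u := by ring
  rw [h7] at h6
  have h8 : 9 * (u : ℝ) ≤ (u * a ^ 2) * u := by nlinarith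
  linarith

theorem hCON (hYB : Pool.Agent.Helper20.RG.StYB) (hLAM : Pool.Agent.Helper20.RL.StLAM)
    (hLAP : Pool.Agent.Helper20.RL.StLAP) (hCCS : StCCS) : StCON := by
  intro A p s γ Cf ε₂ hA hEx hCf hε₂
  obtain ⟨u₁, ε₃', C₁, ε', hε₃', hC₁, hε', H⟩ :=
    hCCS A p s γ (2 * Cf + 6) 1 ε₂ hA hEx (by linarith) one_pos hε₂
  obtain ⟨hs1, hsp, hp2, -, -, -⟩ := hEx
  have hs10 : 0 < s - 1 := by linarith
  obtain ⟨u₂, hu₂⟩ := con_exp (ε₃' / 2) (by linarith)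
  obtain ⟨u₃, hu₃⟩ := con_exp (ε' / 2) (by linarith)
  set ε₃ : ℝ := min (ε₃' / 2) ((s - 1) / 2) with hε₃
  have hε₃0 : 0 < ε₃ := lt_min (by linarith) (by linarith)
  have hε₃a : ε₃ ≤ ε₃' / 2 := min_le_left _ _
  have hε₃b : ε₃ ≤ (s - 1) / 2 := min_le_right _ _
  refine ⟨u₁ + u₂ + u₃ + ⌈2 * Cf + 6⌉₊ + ⌈2 / (s - 1)⌉₊ + 50, ε₃, 4 * C₁, ε' / 2, hε₃0,
    by positivity, by positivity, ?_⟩
  intro u K sl c m E hu hSlo hj hK hE
  have hu1 : u₁ ≤ u := by omega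
  have hu2 : u₂ ≤ u := by omega
  have hu3 : u₃ ≤ u := by omega
  have hu50 : 50 ≤ u := by omega
  have hua : 2 * Cf + 6 ≤ (u : ℝ) := by
    have h1 : ⌈2 * Cf + 6⌉₊ ≤ u := by omega
    exact (Nat.le_ceil _).trans (by exact_mod_cast h1)
  have hub : 2 ≤ (s - 1) * (u : ℝ) := by
    have h1 : ⌈2 / (s - 1)⌉₊ ≤ u := by omega
    have h2 : 2 / (s - 1) ≤ (u : ℝ) := (Nat.le_ceil _).trans (by exact_mod_cast h1)
    rw [div_le_iff₀ hs10] at h2
    linarith
  have huR : (50 : ℝ) ≤ (u : ℝ) := by exact_mod_cast hu50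
  have hu0 : (0 : ℝ) < (u : ℝ) := by linarith
  set D : ℝ := (2 : ℝ) ^ (-(s * u)) with hD
  have hDpos : 0 < D := Real.rpow_pos_of_pos (by norm_num) _
  set t : ℝ := (2 : ℝ) ^ (-(ε₂ * u)) with ht
  have hℓ : (0 : ℝ) < 1 / (2 : ℝ) ^ u := by positivity
  -- the number of ages
  set I : ℕ := Nat.clog 2 (K + 3) with hI
  have hKI : K + 3 ≤ 2 ^ I := Nat.le_pow_clog (by norm_num) _
  have hIK : (2 : ℝ) ^ I ≤ (2 * Cf + 6) * (2 : ℝ) ^ (p * u) := by
    have h1 : 2 ^ (I - 1) < K + 3 := by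
      have := Nat.pow_pred_clog_lt_self (b := 2) (by norm_num) (x := K + 3) (by omega)
      simpa [hI] using this
    have hIpos : 0 < I := by
      rw [hI]; exact Nat.clog_pos (by norm_num) (by omega)
    have h2 : 2 ^ I < 2 * (K + 3) := by
      have : 2 ^ I = 2 * 2 ^ (I - 1) := by
        rw [← pow_succ', Nat.sub_add_cancel hIpos]
      omega
    have h3 : (2 : ℝ) ^ I < 2 * ((K : ℝ) + 3) := by exact_mod_cast h2
    have h4 : (1 : ℝ) ≤ (2 : ℝ) ^ (p * u) :=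
      Real.one_le_rpow (by norm_num) (by nlinarith)
    nlinarith
  have hI3 : I ≤ 3 * u := by
    have h1 : (2 : ℝ) ^ I ≤ (2 : ℝ) ^ (3 * u) := by
      have h2 : (2 : ℝ) ^ (p * u) ≤ (2 : ℝ) ^ ((2 * u : ℕ) : ℝ) := by
        apply Real.rpow_le_rpow_of_exponent_le (by norm_num)
        push_cast
        nlinarith
      rw [Real.rpow_natCast] at h2
      have h3 : 2 * Cf + 6 ≤ (2 : ℝ) ^ u := by
        have : (u : ℝ) ≤ (2 : ℝ) ^ u := by exact_mod_cast (Nat.lt_two_pow_self).le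
        linarith
      calc (2 : ℝ) ^ I ≤ (2 * Cf + 6) * (2 : ℝ) ^ (p * u) := hIK
        _ ≤ (2 : ℝ) ^ u * (2 : ℝ) ^ (2 * u) :=
            mul_le_mul h3 h2 (Real.rpow_nonneg (by norm_num) _) (by positivity)
        _ = (2 : ℝ) ^ (3 * u) := by rw [← pow_add]; congr 1; ring
    exact (pow_le_pow_iff_right₀ (by norm_num : (1 : ℝ) < 2)).mp h1
  obtain ⟨-, hBM, hsum, hdens⟩ := hLAM E D hE hDpos
  -- the sets
  set S : ℕ → ℤ → ℕ → Set Pl := fun i l k' => {x | (2 : ℝ) ^ (-(ε₃' * u)) ≤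
    trS (2 ^ u) t (fun j => Y (sl j) (c j) (m j) (1 / (2 : ℝ) ^ u) (l * 2 ^ i + (k' : ℤ))
      ((Fa E D i l).indicator 1) x)} with hS
  have hcover : {x | Loc (Cf + 10) D (E.indicator 1) x ∧ ∃ k : ℤ,
        (2 : ℝ) ^ (-(ε₃ * u)) ≤ trS (2 ^ u) t (fun j =>
          Y (sl j) (c j) (m j) (1 / (2 : ℝ) ^ u) k (E.indicator 1) x)} ⊆
      ⋃ i ∈ Finset.range (I + 1), ⋃ l : ℤ, ⋃ k' ∈ Finset.range (2 ^ i), S i l k' := by
    rintro x ⟨hloc, k, hk⟩
    set w : ℕ → ℕ → ℝ := fun i j =>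
      Y (sl j) (c j) (m j) (1 / (2 : ℝ) ^ u) k ((Fa E D i (k / 2 ^ i)).indicator 1) x with hw
    have hwnn : ∀ i j, j < 2 ^ u → 0 ≤ w i j := fun i j hj2 =>
      con_Y_nn hYB (hBM i _).1 _ _ _ _ _ (hSlo.1 j hj2) hℓ x
    have h1 : ∀ j ∈ Finset.range (2 ^ u),
        (if Y (sl j) (c j) (m j) (1 / (2 : ℝ) ^ u) k (E.indicator 1) x < t then
          Y (sl j) (c j) (m j) (1 / (2 : ℝ) ^ u) k (E.indicator 1) x else 0) ≤
        D + ∑ i ∈ Finset.range (I + 1), (if w i j < t then w i j else 0) := by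
      intro j hj'
      have hj2 : j < 2 ^ u := Finset.mem_range.mp hj'
      obtain ⟨hc, hm1, hm2⟩ := hj j hj2
      have hLA := hLAP E D Cf (Cf + 10) K I (sl j) (c j) (m j) u x k hE hDpos (hSlo.1 j hj2) hc
        hm2 hm1 le_rfl hKI hloc
      have hnn : ∀ i ∈ Finset.range (I + 1), 0 ≤ (if w i j < t then w i j else 0) := by
        intro i _
        split_ifs
        · exact hwnn i j hj2
        · exact le_rfl
      split_ifs with hlt
      · refine hLA.trans ?_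
        gcongr with i hi
        have hle : w i j ≤ Y (sl j) (c j) (m j) (1 / (2 : ℝ) ^ u) k (E.indicator 1) x :=
          con_Y_mono hYB hE (hBM i _).1 (hBM i _).2 _ _ _ _ _ (hSlo.1 j hj2) hℓ x
        have hlt2 : w i j < t := lt_of_le_of_lt hle hlt
        rw [if_pos hlt2]
      · have := Finset.sum_nonneg hnn
        linarith
    have h2 : (2 : ℝ) ^ (-(ε₃ * u)) ≤ ∑ j ∈ Finset.range (2 ^ u),
        (D + ∑ i ∈ Finset.range (I + 1), (if w i j < t then w i j else 0)) :=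
      hk.trans (Finset.sum_le_sum h1)
    rw [Finset.sum_add_distrib, Finset.sum_const, Finset.card_range, nsmul_eq_mul,
      Finset.sum_comm] at h2
    have h3 : ((2 ^ u : ℕ) : ℝ) * D ≤ (2 : ℝ) ^ (-(ε₃ * u)) / 2 := by
      have e1 : ((2 ^ u : ℕ) : ℝ) * D = (2 : ℝ) ^ (-((s - 1) * u)) := by
        rw [hD]
        push_cast
        rw [← Real.rpow_natCast, ← Real.rpow_add (by norm_num)]
        congr 1; ring
      rw [e1]
      have e2 : (2 : ℝ) ^ (-(ε₃ * u)) / 2 = (2 : ℝ) ^ (-(ε₃ * u) - 1) := by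
        rw [Real.rpow_sub (by norm_num), Real.rpow_one]
      rw [e2]
      apply Real.rpow_le_rpow_of_exponent_le (by norm_num)
      nlinarith
    by_contra hcon
    have h4 : ∀ i ∈ Finset.range (I + 1),
        ∑ j ∈ Finset.range (2 ^ u), (if w i j < t then w i j else 0) ≤
        (2 : ℝ) ^ (-(ε₃' * u)) := by
      intro i hi
      by_contra hi2
      push Not at hi2
      apply hcon
      have h2i : (0 : ℤ) < 2 ^ i := by positivity
      refine mem_biUnion hi (mem_iUnion.mpr ⟨k / 2 ^ i, mem_biUnion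
        (x := (k % 2 ^ i).toNat) ?_ ?_⟩)
      · simp only [Finset.coe_range, mem_Iio]
        have h5 := Int.emod_lt_of_pos k h2i
        have h6 := Int.emod_nonneg k h2i.ne'
        zify
        rw [Int.toNat_of_nonneg h6]
        exact_mod_cast h5
      · have h6 := Int.emod_nonneg k h2i.ne'
        have e : k / 2 ^ i * 2 ^ i + (((k % 2 ^ i).toNat : ℕ) : ℤ) = k := by
          rw [Int.toNat_of_nonneg h6]
          exact Int.ediv_mul_add_emod k (2 ^ i)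
        simp only [hS, mem_ofPred_eq]
        rw [e]
        exact hi2.le
    have h5 := Finset.sum_le_sum h4
    rw [Finset.sum_const, Finset.card_range, nsmul_eq_mul] at h5
    have h6 : ((I + 1 : ℕ) : ℝ) * (2 : ℝ) ^ (-(ε₃' * u)) < (2 : ℝ) ^ (-(ε₃ * u)) / 2 := by
      have g1 : ((I + 1 : ℕ) : ℝ) ≤ 3 * u + 1 := by exact_mod_cast Nat.succ_le_succ hI3
      have g2 := hu₂ u hu2
      have g3 : (2 : ℝ) ^ (-(ε₃ * u)) ≥ (2 : ℝ) ^ (ε₃' / 2 * u) * (2 : ℝ) ^ (-(ε₃' * u)) := by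
        rw [← Real.rpow_add (by norm_num)]
        apply Real.rpow_le_rpow_of_exponent_le (by norm_num)
        nlinarith
      have g4 : (0 : ℝ) < (2 : ℝ) ^ (-(ε₃' * u)) := Real.rpow_pos_of_pos (by norm_num) _
      have g5 : ((I + 1 : ℕ) : ℝ) * (2 : ℝ) ^ (-(ε₃' * u)) ≤
          (3 * u + 1) * (2 : ℝ) ^ (-(ε₃' * u)) := mul_le_mul_of_nonneg_right g1 g4.le
      have g6 : 2 * (3 * (u : ℝ) + 1) * (2 : ℝ) ^ (-(ε₃' * u)) <
          (2 : ℝ) ^ (ε₃' / 2 * u) * (2 : ℝ) ^ (-(ε₃' * u)) :=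
        mul_lt_mul_of_pos_right g2 g4
      linarith
    linarith
  -- the measure
  have hmeas : ∀ i ∈ Finset.range (I + 1), ∀ l : ℤ, ∑ k' ∈ Finset.range (2 ^ i), volume (S i l k') ≤
      ENNReal.ofReal (C₁ * (2 : ℝ) ^ ((p - ε') * u)) * volume (Fa E D i l) := by
    intro i hi l
    have hi' : i ≤ I := Nat.lt_succ_iff.mp (Finset.mem_range.mp hi)
    refine H u (2 ^ i) (l * 2 ^ i) t sl c m (Fa E D i l) hu1 hSlo ?_ ?_ (Or.inl le_rfl)
      (hBM i l).1 ?_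
    · intro j hj'
      obtain ⟨hc, hm1, -⟩ := hj j hj'
      exact ⟨by linarith, hm1⟩
    · push_cast
      exact (pow_le_pow_right₀ (by norm_num) hi').trans hIK
    · intro y k' hk'
      refine (hdens i l y k' hk').trans (ENNReal.ofReal_le_ofReal ?_)
      have e1 : D8 s u = 8 * D := rfl
      rw [e1]
      have : 0 ≤ D * (4 : ℝ) ^ k' := by positivity
      nlinarith
  calc volume {x | Loc (Cf + 10) D (E.indicator 1) x ∧ ∃ k : ℤ,
        (2 : ℝ) ^ (-(ε₃ * u)) ≤ trS (2 ^ u) t (fun j =>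
          Y (sl j) (c j) (m j) (1 / (2 : ℝ) ^ u) k (E.indicator 1) x)}
      ≤ volume (⋃ i ∈ Finset.range (I + 1), ⋃ l : ℤ, ⋃ k' ∈ Finset.range (2 ^ i), S i l k') :=
        measure_mono hcover
    _ ≤ ∑ i ∈ Finset.range (I + 1), volume (⋃ l : ℤ, ⋃ k' ∈ Finset.range (2 ^ i), S i l k') :=
        measure_biUnion_finset_le _ _
    _ ≤ ∑ i ∈ Finset.range (I + 1), ∑' l : ℤ, ∑ k' ∈ Finset.range (2 ^ i), volume (S i l k') := by
        refine Finset.sum_le_sum fun i _ => (measure_iUnion_le _).trans ?_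
        exact ENNReal.tsum_le_tsum fun l => measure_biUnion_finset_le _ _
    _ ≤ ∑ i ∈ Finset.range (I + 1), ENNReal.ofReal (C₁ * (2 : ℝ) ^ ((p - ε') * u)) *
          (4 * volume E) := by
        refine Finset.sum_le_sum fun i hi => ?_
        refine (ENNReal.tsum_le_tsum fun l => hmeas i hi l).trans ?_
        rw [ENNReal.tsum_mul_left]
        gcongr
        exact hsum i
    _ = ENNReal.ofReal (((I + 1 : ℕ) : ℝ) * (C₁ * (2 : ℝ) ^ ((p - ε') * u)) * 4) * volume E := by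
        rw [Finset.sum_const, Finset.card_range, nsmul_eq_mul]
        have f1 : ENNReal.ofReal (((I + 1 : ℕ) : ℝ) * (C₁ * (2 : ℝ) ^ ((p - ε') * u)) * 4) =
            ((I + 1 : ℕ) : ℝ≥0∞) * ENNReal.ofReal (C₁ * (2 : ℝ) ^ ((p - ε') * u)) * 4 := by
          rw [ENNReal.ofReal_mul (p := ((I + 1 : ℕ) : ℝ) * (C₁ * (2 : ℝ) ^ ((p - ε') * u)))
            (by positivity), ENNReal.ofReal_mul (p := ((I + 1 : ℕ) : ℝ)) (by positivity),
            ENNReal.ofReal_natCast]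
          rw [show ENNReal.ofReal 4 = 4 by norm_num]
        rw [f1]
        ring
    _ ≤ ENNReal.ofReal (4 * C₁ * (2 : ℝ) ^ ((p - ε' / 2) * u)) * volume E := by
        refine mul_le_mul' (ENNReal.ofReal_le_ofReal ?_) le_rfl
        have e1 : (2 : ℝ) ^ ((p - ε' / 2) * u) =
            (2 : ℝ) ^ (ε' / 2 * u) * (2 : ℝ) ^ ((p - ε') * u) := by
          rw [← Real.rpow_add (by norm_num)]; congr 1; ring
        have e2 : ((I + 1 : ℕ) : ℝ) ≤ (2 : ℝ) ^ (ε' / 2 * u) := by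
          have f1 : ((I + 1 : ℕ) : ℝ) ≤ 3 * u + 1 := by exact_mod_cast Nat.succ_le_succ hI3
          have f2 := hu₃ u hu3
          linarith
        rw [e1]
        have e3 : 0 ≤ C₁ * (2 : ℝ) ^ ((p - ε') * u) := by positivity
        calc ((I + 1 : ℕ) : ℝ) * (C₁ * (2 : ℝ) ^ ((p - ε') * u)) * 4
            ≤ (2 : ℝ) ^ (ε' / 2 * u) * (C₁ * (2 : ℝ) ^ ((p - ε') * u)) * 4 := by gcongr
          _ = 4 * C₁ * ((2 : ℝ) ^ (ε' / 2 * u) * (2 : ℝ) ^ ((p - ε') * u)) := by ring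

end Pool.Agent.Helper18.EP
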